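import Mathlib

/-!
The golden partition property for posets with a good pair.
-/

set_option autoImplicit false
set_option linter.unusedSectionVars false

namespace Pool.Agent.U155.GC

/-- the number of the linear extensions whose order relation has a property -/
noncomputable def cnt (P : Type) [PartialOrder P] (n : ℕ) (p : (P → P → Prop) → Prop) : ℕ :=
  {f : P ≃ Fin n | StrictMono (f : P → Fin n) ∧ p (fun x y => f x < f y)}.ncard

/-- the golden partition property -/
def GPC (P : Type) [PartialOrder P] (n : ℕ) : Prop :=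
  ∃ a b : P, ¬ a ≤ b ∧ ¬ b ≤ a ∧ ∀ u v : P, ((u = a ∧ v = b) ∨ (u = b ∧ v = a)) →
    ∃ c d : P, c ≠ d ∧ ∀ w z : P, ((w = c ∧ z = d) ∨ (w = d ∧ z = c)) →
      cnt P n (fun r => r u v) + cnt P n (fun r => r u v ∧ r w z) ≤ cnt P n (fun _ => True)

variable {P : Type} [PartialOrder P] {n : ℕ} [Finite P]

lemma cnt_mono {p q : (P → P → Prop) → Prop}
    (h : ∀ f : P ≃ Fin n, StrictMono (f : P → Fin n) → p (fun x y => f x < f y) →
      q (fun x y => f x < f y)) : cnt P n p ≤ cnt P n q :=
  Set.ncard_le_ncard (fun f hf => ⟨hf.1, h f hf.1 hf.2⟩) (Set.toFinite _)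

lemma cnt_split (p q : (P → P → Prop) → Prop) :
    cnt P n p = cnt P n (fun r => p r ∧ q r) + cnt P n (fun r => p r ∧ ¬ q r) := by
  unfold cnt
  rw [← Set.ncard_union_eq ?_ (Set.toFinite _) (Set.toFinite _)]
  · congr 1
    ext f
    simp only [Set.mem_setOf_eq, Set.mem_union]
    tauto
  · rw [Set.disjoint_left]
    rintro f ⟨-, -, h1⟩ ⟨-, -, h2⟩
    exact h2 h1

lemma cnt_tot {a y : P} (h : a ≠ y) :
    cnt P n (fun r => r a y) + cnt P n (fun r => r y a) = cnt P n (fun _ => True) := by
  rw [cnt_split (n := n) (fun _ : P → P → Prop => True) (fun r => r a y)]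
  congr 1
  · apply le_antisymm
    · exact cnt_mono (fun f _ h1 => ⟨trivial, h1⟩)
    · exact cnt_mono (fun f _ h1 => h1.2)
  · apply le_antisymm
    · exact cnt_mono (fun f _ h1 => ⟨trivial, h1.not_gt⟩)
    · refine cnt_mono (fun f _ h1 => ?_)
      rcases lt_trichotomy (f a) (f y) with h2 | h2 | h2
      · exact absurd h2 h1.2
      · exact absurd (f.injective h2) h
      · exact h2

lemma cnt_mid {a y z : P} (hyz : y < z) (hay : a ≠ y) :
    cnt P n (fun r => r a z) = cnt P n (fun r => r a y) + cnt P n (fun r => r y a ∧ r a z) := by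
  rw [cnt_split (n := n) (fun r : P → P → Prop => r a z) (fun r => r a y)]
  congr 1
  · apply le_antisymm
    · exact cnt_mono (fun f _ h1 => h1.2)
    · exact cnt_mono (fun f hf h1 => ⟨h1.trans (hf hyz), h1⟩)
  · apply le_antisymm
    · refine cnt_mono (fun f _ h1 => ⟨?_, h1.1⟩)
      rcases lt_trichotomy (f a) (f y) with h2 | h2 | h2
      · exact absurd h2 h1.2
      · exact absurd (f.injective h2) hay
      · exact h2
    · exact cnt_mono (fun f _ h1 => ⟨h1.2, h1.1.not_gt⟩)

/-- the exchange of the places of `a` and `y` -/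
lemma cnt_swap {a y : P} (Q : (P → P → Prop) → Prop) (hD : ∀ w, w < a → w < y)
    (hU : ∀ f : P ≃ Fin n, StrictMono (f : P → Fin n) → f y < f a → Q (fun u v => f u < f v) →
      ∀ w, y < w → f a < f w) :
    cnt P n (fun r => r y a ∧ Q r) ≤ cnt P n (fun r => r a y) := by
  classical
  unfold cnt
  refine Set.ncard_le_ncard_of_injOn (fun f => (Equiv.swap a y).trans f) ?_ ?_ (Set.toFinite _)
  · rintro f ⟨hf, hlt, hQ⟩
    have hay : a ≠ y := by
      rintro rfl
      exact lt_irrefl _ hlt
    have n1 : ¬ a < y := fun h => absurd (hf h) hlt.not_gt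
    have n2 : ¬ y < a := fun h => lt_irrefl _ (hD y h)
    have ga : ((Equiv.swap a y).trans f) a = f y := by simp
    have gy : ((Equiv.swap a y).trans f) y = f a := by simp
    have go : ∀ w, w ≠ a → w ≠ y → ((Equiv.swap a y).trans f) w = f w := by
      intro w h1 h2
      simp [Equiv.swap_apply_of_ne_of_ne h1 h2]
    refine ⟨?_, ?_⟩
    · intro u v huv
      show ((Equiv.swap a y).trans f) u < ((Equiv.swap a y).trans f) v
      by_cases hu : u = a
      · subst hu
        have v1 : v ≠ y := by rintro rfl; exact n1 huv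
        rw [ga, go v huv.ne' v1]
        exact hlt.trans (hf huv)
      by_cases hu' : u = y
      · subst hu'
        have v1 : v ≠ a := by rintro rfl; exact n2 huv
        rw [gy, go v v1 huv.ne']
        exact hU f hf hlt hQ v huv
      rw [go u hu hu']
      by_cases hv : v = a
      · subst hv
        rw [ga]
        exact hf (hD u huv)
      by_cases hv' : v = y
      · subst hv'
        rw [gy]
        exact (hf huv).trans hlt
      rw [go v hv hv']
      exact hf huv
    · show ((Equiv.swap a y).trans f) a < ((Equiv.swap a y).trans f) y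
      rw [ga, gy]
      exact hlt
  · intro f _ g _ hfg
    have h1 : ∀ w, ((Equiv.swap a y).trans f) w = ((Equiv.swap a y).trans g) w := fun w => by
      rw [show (Equiv.swap a y).trans f = (Equiv.swap a y).trans g from hfg]
    ext w
    have h2 := h1 (Equiv.swap a y w)
    simp only [Equiv.trans_apply, Equiv.swap_apply_self] at h2
    rw [h2]

lemma gpc_of {a y : P} (h1 : ¬ a ≤ y) (h2 : ¬ y ≤ a)
    (A : ∃ c d : P, c ≠ d ∧ ∀ w z : P, ((w = c ∧ z = d) ∨ (w = d ∧ z = c)) →
      cnt P n (fun r => r a y) + cnt P n (fun r => r a y ∧ r w z) ≤ cnt P n (fun _ => True))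
    (B : ∃ c d : P, c ≠ d ∧ ∀ w z : P, ((w = c ∧ z = d) ∨ (w = d ∧ z = c)) →
      cnt P n (fun r => r y a) + cnt P n (fun r => r y a ∧ r w z) ≤ cnt P n (fun _ => True)) :
    GPC P n := by
  refine ⟨a, y, h1, h2, ?_⟩
  rintro u v (⟨rfl, rfl⟩ | ⟨rfl, rfl⟩)
  · exact A
  · exact B

lemma half {u v : P} (huv : u ≠ v)
    (h : 2 * cnt P n (fun r => r u v) ≤ cnt P n (fun _ => True)) :
    ∃ c d : P, c ≠ d ∧ ∀ w z : P, ((w = c ∧ z = d) ∨ (w = d ∧ z = c)) →
      cnt P n (fun r => r u v) + cnt P n (fun r => r u v ∧ r w z) ≤ cnt P n (fun _ => True) := by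
  refine ⟨u, v, huv, fun w z _ => ?_⟩
  have h1 : cnt P n (fun r => r u v ∧ r w z) ≤ cnt P n (fun r => r u v) :=
    cnt_mono (fun f _ h => h.1)
  omega

/-- **The golden partition property for posets with a good pair.** -/
theorem gpc_good {a b : P} (hab : a ≠ b) (hD : ∀ w, w < a → w < b)
    (hC : ∀ w w', b < w → b < w' → ¬ a < w → ¬ a < w' → w ≤ w' ∨ w' ≤ w)
    (hN : 2 * cnt P n (fun r => r a b) ≤ cnt P n (fun _ => True))
    (hpos : 0 < cnt P n (fun _ => True)) : GPC P n := by
  have n1 : ¬ a ≤ b := by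
    intro h
    have h1 : cnt P n (fun _ => True) ≤ cnt P n (fun r => r a b) :=
      cnt_mono (fun f hf _ => hf (lt_of_le_of_ne h hab))
    omega
  have n2 : ¬ b ≤ a := fun h => lt_irrefl _ (hD b (lt_of_le_of_ne h hab.symm))
  -- if `a` comes before `b` in exactly half of the linear extensions
  have heq : 2 * cnt P n (fun r => r a b) = cnt P n (fun _ => True) → GPC P n := by
    intro h
    have h1 := cnt_tot (n := n) hab
    exact gpc_of n1 n2 (half hab h.le) (half hab.symm (by omega))
  have inc : ∀ y, b ≤ y → ¬ a < y → ¬ a ≤ y ∧ ¬ y ≤ a := by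
    intro y h1 h2
    have h3 : a ≠ y := by
      rintro rfl
      exact n2 h1
    refine ⟨fun h => h2 (lt_of_le_of_ne h h3), fun h => ?_⟩
    exact lt_irrefl _ (lt_of_lt_of_le (hD y (lt_of_le_of_ne h h3.symm)) h1)
  by_cases hz : ∃ z, b < z ∧ ¬ a < z ∧ cnt P n (fun _ => True) ≤ 2 * cnt P n (fun r => r a z)
  · obtain ⟨z, hzm⟩ := (Set.toFinite {z | b < z ∧ ¬ a < z ∧
      cnt P n (fun _ => True) ≤ 2 * cnt P n (fun r => r a z)}).exists_minimal hz
    obtain ⟨hbz, haz, hFz⟩ := hzm.prop
    obtain ⟨y, hym⟩ := (Set.toFinite {w | w < z ∧ b ≤ w ∧ ¬ a < w}).exists_maximal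
      ⟨b, hbz, le_rfl, fun h => n1 h.le⟩
    obtain ⟨hyz, hby, hay⟩ := hym.prop
    have hFy : 2 * cnt P n (fun r => r a y) ≤ cnt P n (fun _ => True) := by
      rcases hby.lt_or_eq with h1 | h1
      · by_contra hcon
        exact absurd (hzm.le_of_le (y := y) ⟨h1, hay, by omega⟩ hyz.le) hyz.not_ge
      · rw [← h1]
        exact hN
    obtain ⟨iy1, iy2⟩ := inc y hby hay
    obtain ⟨iz1, iz2⟩ := inc z hbz.le haz
    have hney : a ≠ y := fun h => iy1 h.le
    have hnez : a ≠ z := fun h => iz1 h.le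
    have hnext : ∀ w, y < w → ¬ a < w → z ≤ w := by
      intro w h1 h2
      rcases hC w z (lt_of_le_of_lt hby h1) hbz h2 haz with h3 | h3
      · rcases h3.lt_or_eq with h4 | h4
        · exact absurd (hym.le_of_ge (y := w) ⟨h4, hby.trans h1.le, h2⟩ h1.le) h1.not_ge
        · exact h4.ge
      · exact h3
    have hp : cnt P n (fun r => r y a ∧ r a z) ≤ cnt P n (fun r => r a y) := by
      refine cnt_swap (fun r => r a z) ?_ ?_
      · intro w hw
        exact lt_of_lt_of_le (hD w hw) hby
      · intro f hf _ h2 w hw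
        by_cases haw : a < w
        · exact hf haw
        · exact lt_of_lt_of_le h2 (hf.monotone (hnext w hw haw))
    have hmid := cnt_mid (n := n) hyz hney
    have ty := cnt_tot (n := n) hney
    have tz := cnt_tot (n := n) hnez
    by_cases hs : cnt P n (fun r => r a z) + cnt P n (fun r => r a y) ≤ cnt P n (fun _ => True)
    · -- the first pair is `a, z`
      refine gpc_of iz1 iz2 ⟨a, y, hney, ?_⟩ (half hnez.symm (by omega))
      rintro w x (⟨rfl, rfl⟩ | ⟨rfl, rfl⟩)
      · have h1 : cnt P n (fun r => r w z ∧ r w x) ≤ cnt P n (fun r => r w x) :=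
          cnt_mono (fun f _ h => h.2)
        omega
      · have h1 : cnt P n (fun r => r x z ∧ r w x) ≤ cnt P n (fun r => r w x ∧ r x z) :=
          cnt_mono (fun f _ h => ⟨h.2, h.1⟩)
        omega
    · -- the first pair is `a, y`
      refine gpc_of iy1 iy2 (half hney hFy) ⟨a, z, hnez, ?_⟩
      rintro w x (⟨rfl, rfl⟩ | ⟨rfl, rfl⟩)
      · omega
      · have h1 : cnt P n (fun r => r y x ∧ r w x) ≤ cnt P n (fun r => r w x) :=
          cnt_mono (fun f _ h => h.2)
        omega
  · push Not at hz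
    obtain ⟨y, hym⟩ := (Set.toFinite {w | b ≤ w ∧ ¬ a < w}).exists_maximal
      ⟨b, le_rfl, fun h => n1 h.le⟩
    obtain ⟨hby, hay⟩ := hym.prop
    obtain ⟨iy1, iy2⟩ := inc y hby hay
    have hney : a ≠ y := fun h => iy1 h.le
    have hp : cnt P n (fun r => r y a) ≤ cnt P n (fun r => r a y) := by
      refine le_trans (cnt_mono (q := fun r => r y a ∧ True) (fun f _ h => ⟨h, trivial⟩)) ?_
      refine cnt_swap (fun _ => True) ?_ ?_
      · intro w hw
        exact lt_of_lt_of_le (hD w hw) hby
      · intro f hf _ _ w hw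
        by_cases haw : a < w
        · exact hf haw
        · exact absurd (hym.le_of_ge (y := w) ⟨hby.trans hw.le, haw⟩ hw.le) hw.not_ge
    have ty := cnt_tot (n := n) hney
    rcases hby.lt_or_eq with h1 | h1
    · have := hz y h1 hay
      omega
    · apply heq
      rw [← h1] at ty hp
      omega

end Pool.Agent.U155.GC
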