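import Mathlib
import Pool.Agent.U155.GC.A
import Pool.Agent.U155.FC.Red

/-!
Pairs of elements with the same lower elements and chains as differences of the sets of upper
elements, and their duals, in posets whose cover graph is a forest and in N-free posets.
-/

set_option autoImplicit false
set_option linter.unusedSectionVars false

namespace Pool.Agent.U155.GC

open Pool.Agent.R636.BG Pool.Agent.U155.FC

/-- the dual of `Near` -/
def NearD (P : Type) [PartialOrder P] (x y : P) : Prop :=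
  x ≠ y ∧ (∀ w, x < w ↔ y < w) ∧
  (∀ w w', w < x → w' < x → ¬ w < y → ¬ w' < y → w ≤ w' ∨ w' ≤ w) ∧
  (∀ w w', w < y → w' < y → ¬ w < x → ¬ w' < x → w ≤ w' ∨ w' ≤ w)

lemma near_dual {P : Type} [PartialOrder P] {x y : P} (h : NearD P x y) :
    Near Pᵒᵈ (OrderDual.toDual x) (OrderDual.toDual y) :=
  ⟨h.1, h.2.1, fun w w' h1 h2 h3 h4 => (h.2.2.1 w w' h1 h2 h3 h4).symm,
    fun w w' h1 h2 h3 h4 => (h.2.2.2 w w' h1 h2 h3 h4).symm⟩

lemma nearD_of {P : Type} [PartialOrder P] {x y : Pᵒᵈ} (h : Near Pᵒᵈ x y) :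
    NearD P (OrderDual.ofDual x) (OrderDual.ofDual y) :=
  ⟨h.1, h.2.1, fun w w' h1 h2 h3 h4 => (h.2.2.1 w w' h1 h2 h3 h4).symm,
    fun w w' h1 h2 h3 h4 => (h.2.2.2 w w' h1 h2 h3 h4).symm⟩

/-- elements outside `T` have the same relations to all elements of `T` -/
def Auto (P : Type) [PartialOrder P] (T : Set P) : Prop :=
  ∀ x ∈ T, ∀ y ∈ T, ∀ w ∉ T, (w < x ↔ w < y) ∧ (x < w ↔ y < w)

lemma Near.lift {P : Type} [PartialOrder P] {T : Set P} (hT : Auto P T) {a b : T}
    (h : Near T a b) : Near P a b := by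
  obtain ⟨h1, h2, h3, h4⟩ := h
  refine ⟨fun h => h1 (Subtype.ext h), fun w => ?_, fun w w' k1 k2 k3 k4 => ?_,
    fun w w' k1 k2 k3 k4 => ?_⟩
  · by_cases hw : w ∈ T
    · exact h2 ⟨w, hw⟩
    · exact (hT a a.2 b b.2 w hw).1
  · by_cases hw : w ∈ T
    · by_cases hw' : w' ∈ T
      · exact h3 ⟨w, hw⟩ ⟨w', hw'⟩ k1 k2 k3 k4
      · exact absurd ((hT a a.2 b b.2 w' hw').2.1 k2) k4
    · exact absurd ((hT a a.2 b b.2 w hw).2.1 k1) k3
  · by_cases hw : w ∈ T
    · by_cases hw' : w' ∈ T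
      · exact h4 ⟨w, hw⟩ ⟨w', hw'⟩ k1 k2 k3 k4
      · exact absurd ((hT a a.2 b b.2 w' hw').2.2 k2) k4
    · exact absurd ((hT a a.2 b b.2 w hw).2.2 k1) k3

lemma NearD.lift {P : Type} [PartialOrder P] {T : Set P} (hT : Auto P T) {a b : T}
    (h : NearD T a b) : NearD P a b := by
  obtain ⟨h1, h2, h3, h4⟩ := h
  refine ⟨fun h => h1 (Subtype.ext h), fun w => ?_, fun w w' k1 k2 k3 k4 => ?_,
    fun w w' k1 k2 k3 k4 => ?_⟩
  · by_cases hw : w ∈ T
    · exact h2 ⟨w, hw⟩
    · exact (hT a a.2 b b.2 w hw).2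
  · by_cases hw : w ∈ T
    · by_cases hw' : w' ∈ T
      · exact h3 ⟨w, hw⟩ ⟨w', hw'⟩ k1 k2 k3 k4
      · exact absurd ((hT a a.2 b b.2 w' hw').1.1 k2) k4
    · exact absurd ((hT a a.2 b b.2 w hw).1.1 k1) k3
  · by_cases hw : w ∈ T
    · by_cases hw' : w' ∈ T
      · exact h4 ⟨w, hw⟩ ⟨w', hw'⟩ k1 k2 k3 k4
      · exact absurd ((hT a a.2 b b.2 w' hw').1.2 k2) k4
    · exact absurd ((hT a a.2 b b.2 w hw).1.2 k1) k3

/-- `P` has a pair of one of the two kinds -/
def HasNear (P : Type) [PartialOrder P] : Prop := (∃ a b : P, Near P a b) ∨ ∃ a b : P, NearD P a b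

lemma HasNear.lift {P : Type} [PartialOrder P] {T : Set P} (hT : Auto P T) (h : HasNear T) :
    HasNear P := by
  rcases h with ⟨a, b, h⟩ | ⟨a, b, h⟩
  · exact Or.inl ⟨a, b, Near.lift hT h⟩
  · exact Or.inr ⟨a, b, NearD.lift hT h⟩

/-- a tree which is not a direct sum -/
lemma tree_near {P : Type} [Finite P] [PartialOrder P] (T : FC.Tree P)
    (hirr : ∀ S : Set P, S.Nonempty → Sᶜ.Nonempty → ¬ (∀ s ∈ S, ∀ t ∉ S, s ≤ t))
    {a b : P} (hab : a ⋖ b) : HasNear P := by
  by_contra hcon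
  have h1 : ∀ x y : P, ¬ Near P x y := fun x y h => hcon (Or.inl ⟨x, y, h⟩)
  have h2 : ∀ x y : Pᵒᵈ, ¬ Near Pᵒᵈ x y := fun x y h => hcon (Or.inr ⟨_, _, nearD_of h⟩)
  refine no_bad (P := P) ⟨T, ⟨fun x y h => (h1 x y h).elim, fun a b c z₁ z₂ h => (h1 a b h).elim,
    fun a b c h => (h1 a b h).elim⟩, ⟨fun x y h => (h2 x y h).elim,
    fun a b c z₁ z₂ h => (h2 a b h).elim, fun a b c h => (h2 a b h).elim⟩, ?_⟩ hirr hab
  intro a b z h3 h4 h5 h6
  have nab : a ≠ b := fun h => h5 h.symm.le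
  have nba : ¬ a < b := fun h => h4 (h.le.trans h3.le)
  have nza : ¬ z < a := fun h => h5 (h3.le.trans h.le)
  refine h1 a b ⟨nab, fun w => ?_, ?_, ?_⟩
  · by_cases w1 : w = a
    · subst w1
      exact ⟨fun h => absurd h (lt_irrefl _), fun h => absurd h nba⟩
    by_cases w2 : w = b
    · subst w2
      exact ⟨fun h => absurd h.le h5, fun h => absurd h (lt_irrefl _)⟩
    by_cases w3 : w = z
    · subst w3
      exact ⟨fun h => absurd h nza, fun h => absurd h h3.not_gt⟩
    exact (h6 w w1 w2 w3).1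
  · have key : ∀ w, a < w → ¬ b < w → False := by
      intro w k1 k2
      by_cases w2 : w = b
      · subst w2; exact nba k1
      by_cases w3 : w = z
      · subst w3; exact k2 h3
      exact k2 ((h6 w k1.ne' w2 w3).2.2.1.1 k1)
    intro w w' k1 _ k3 _
    exact (key w k1 k3).elim
  · have key : ∀ w, b < w → ¬ a < w → w = z := by
      intro w k1 k2
      by_contra w3
      by_cases w1 : w = a
      · subst w1; exact h5 k1.le
      exact k2 ((h6 w w1 k1.ne' w3).2.2.1.2 k1)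
    intro w w' k1 k2 k3 k4
    left
    rw [key w k1 k3, key w' k2 k4]

/-- **Forests.** -/
theorem forest_near : ∀ (P : Type) [Finite P] [PartialOrder P], FSide P →
    (∃ x y : P, ¬ x ≤ y ∧ ¬ y ≤ x) → HasNear P := by
  have key : ∀ (N : ℕ) (P : Type) [Finite P] [PartialOrder P], FSide P →
      (∃ x y : P, ¬ x ≤ y ∧ ¬ y ≤ x) → Nat.card P = N → HasNear P := by
    intro N
    induction N using Nat.strong_induction_on with
    | _ N ih =>
      intro P _ _ hF hxy hN
      -- a piece with an incomparable pair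
      have piece : ∀ T : Set P, Tᶜ.Nonempty → Auto P T → (∀ a b : T, a ⋖ b → (a : P) ⋖ b) →
          (∃ x ∈ T, ∃ y ∈ T, ¬ x ≤ y ∧ ¬ y ≤ x) → HasNear P := by
        rintro T ⟨t, ht⟩ hT hc ⟨x, hx, y, hy, h1, h2⟩
        have hlt : Nat.card T < N := by
          rw [← hN]
          have : T.ncard < Nat.card P := by
            rw [← Set.ncard_univ]
            exact Set.ncard_lt_ncard ⟨Set.subset_univ _, fun h => ht (h trivial)⟩ (Set.toFinite _)
          exact this
        exact (ih _ hlt T (hF.sub T hc) ⟨⟨x, hx⟩, ⟨y, hy⟩, h1, h2⟩ rfl).lift hT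
      by_cases hS : ∃ S : Set P, S.Nonempty ∧ Sᶜ.Nonempty ∧ ∀ s ∈ S, ∀ t ∉ S, s ≤ t
      · obtain ⟨S, hS, hS', hst⟩ := hS
        have hst' : ∀ s ∈ S, ∀ t ∉ S, s < t := fun s hs t ht =>
          lt_of_le_of_ne (hst s hs t ht) (fun h => ht (h ▸ hs))
        obtain ⟨x, y, h1, h2⟩ := hxy
        by_cases hx : x ∈ S
        · by_cases hy : y ∈ S
          · refine piece S hS' ?_ ?_ ⟨x, hx, y, hy, h1, h2⟩
            · intro u hu v hv w hw
              exact ⟨⟨fun h => absurd h (hst' u hu w hw).not_gt,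
                fun h => absurd h (hst' v hv w hw).not_gt⟩,
                ⟨fun _ => hst' v hv w hw, fun _ => hst' u hu w hw⟩⟩
            · intro a b hab
              refine ⟨hab.lt, fun w h1 h2 => ?_⟩
              by_cases hw : w ∈ S
              · exact hab.2 (c := ⟨w, hw⟩) h1 h2
              · exact absurd (hst b b.2 w hw) h2.not_ge
          · exact absurd (hst x hx y hy) h1
        · by_cases hy : y ∈ S
          · exact absurd (hst y hy x hx) h2
          · refine piece Sᶜ (by rwa [compl_compl]) ?_ ?_ ⟨x, hx, y, hy, h1, h2⟩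
            · intro u hu v hv w hw
              rw [Set.mem_compl_iff, not_not] at hw
              exact ⟨⟨fun _ => hst' w hw v hv, fun _ => hst' w hw u hu⟩,
                ⟨fun h => absurd h (hst' w hw u hu).not_gt,
                fun h => absurd h (hst' w hw v hv).not_gt⟩⟩
            · intro a b hab
              refine ⟨hab.lt, fun w h1 h2 => ?_⟩
              by_cases hw : w ∈ S
              · exact absurd (hst w hw a a.2) h1.not_ge
              · exact hab.2 (c := ⟨w, hw⟩) h1 h2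
      by_cases hX : ∃ S : Set P, S.Nonempty ∧ Sᶜ.Nonempty ∧ ∀ u v, u ⋖ v → (u ∈ S ↔ v ∈ S)
      · obtain ⟨S, hS, hS', hcov⟩ := hX
        have hle : ∀ s t : P, s ≤ t → (s ∈ S ↔ t ∈ S) := by
          intro s
          induction s using WellFoundedGT.induction with
          | ind s ihs =>
            intro t hst
            rcases hst.lt_or_eq with h1 | h1
            · obtain ⟨w, w1, w2⟩ := exists_covBy_le_of_lt h1
              exact (hcov s w w1).trans (ihs w w1.lt t w2)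
            · rw [h1]
        have auto : ∀ T : Set P, (∀ s t : P, s ≤ t → (s ∈ T ↔ t ∈ T)) → Auto P T := by
          intro T hT u hu v hv w hw
          exact ⟨⟨fun h => absurd ((hT w u h.le).2 hu) hw, fun h => absurd ((hT w v h.le).2 hv) hw⟩,
            ⟨fun h => absurd ((hT u w h.le).1 hu) hw, fun h => absurd ((hT v w h.le).1 hv) hw⟩⟩
        have cov : ∀ T : Set P, (∀ s t : P, s ≤ t → (s ∈ T ↔ t ∈ T)) →
            ∀ a b : T, a ⋖ b → (a : P) ⋖ b := by
          intro T hT a b hab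
          refine ⟨hab.lt, fun w h1 h2 => ?_⟩
          exact hab.2 (c := ⟨w, (hT a w h1.le).1 a.2⟩) h1 h2
        have hle' : ∀ s t : P, s ≤ t → (s ∈ Sᶜ ↔ t ∈ Sᶜ) := fun s t h => by
          rw [Set.mem_compl_iff, Set.mem_compl_iff, hle s t h]
        by_cases c1 : ∃ x ∈ S, ∃ y ∈ S, ¬ x ≤ y ∧ ¬ y ≤ x
        · exact piece S hS' (auto S hle) (cov S hle) c1
        by_cases c2 : ∃ x ∈ Sᶜ, ∃ y ∈ Sᶜ, ¬ x ≤ y ∧ ¬ y ≤ x
        · exact piece Sᶜ (by rwa [compl_compl]) (auto _ hle') (cov _ hle') c2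
        have d1 : Ch S := by
          intro u hu v hv
          by_contra h
          push Not at h
          exact c1 ⟨u, hu, v, hv, h.1, h.2⟩
        have d2 : Ch (Sᶜ : Set P) := by
          intro u hu v hv
          by_contra h
          push Not at h
          exact c2 ⟨u, hu, v, hv, h.1, h.2⟩
        obtain ⟨a, ha, ha'⟩ := d1.least hS.some_mem
        obtain ⟨b, hb, hb'⟩ := d2.least hS'.some_mem
        left
        refine ⟨a, b, fun h => hb (h ▸ ha), fun w => ⟨fun h => ?_, fun h => ?_⟩, ?_, ?_⟩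
        · exact absurd (ha' w ((hle w a h.le).2 ha)) h.not_ge
        · exact absurd (hb' w ((hle' w b h.le).2 hb)) h.not_ge
        · intro w w' h1 h2 _ _
          exact d1 w ((hle a w h1.le).1 ha) w' ((hle a w' h2.le).1 ha)
        · intro w w' h1 h2 _ _
          exact d2 w ((hle' b w h1.le).1 hb) w' ((hle' b w' h2.le).1 hb)
      · have hT : FC.Tree P := ⟨fun S hne h w => by
          by_contra hw
          exact hX ⟨S, hne, ⟨w, hw⟩, h⟩, hF⟩
        by_cases hab : ∃ a b : P, a ⋖ b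
        · obtain ⟨a, b, hab⟩ := hab
          exact tree_near hT (fun S h1 h2 h3 => hS ⟨S, h1, h2, h3⟩) hab
        · push Not at hab
          obtain ⟨x, y, h1, h2⟩ := hxy
          have := hT.conn {x} ⟨x, rfl⟩ (fun u v huv => absurd huv (hab u v)) y
          exact absurd (le_of_eq (Set.mem_singleton_iff.1 this).symm) h1
  intro P _ _ h1 h2
  exact key _ P h1 h2 rfl

/-- no cover-preserving `N` -/
def NFree (P : Type) [PartialOrder P] : Prop :=
  ∀ a b c d : P, a ⋖ c → b ⋖ c → b ⋖ d → a < d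

/-- **N-free posets.** -/
theorem nfree_near (P : Type) [Finite P] [PartialOrder P] (hN : NFree P)
    (hxy : ∃ x y : P, ¬ x ≤ y ∧ ¬ y ≤ x) : HasNear P := by
  classical
  -- two upper covers of an element have the same lower elements
  have same : ∀ p u v : P, p ⋖ u → p ⋖ v → ∀ w, w < u → w < v := by
    intro p u v h1 h2 w hw
    obtain ⟨q, q1, q2⟩ := exists_le_covBy_of_lt hw
    exact lt_of_le_of_lt q1 (hN q p u v q2 h1 h2)
  have ex : ∃ x y : P, x ≠ y ∧ ∀ w, w < x ↔ w < y := by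
    obtain ⟨x, y, h1, h2⟩ := hxy
    by_cases hm : ∃ p, p < x ∧ p < y
    · obtain ⟨p, hp⟩ := (Set.toFinite {p | p < x ∧ p < y}).exists_maximal hm
      obtain ⟨u, u1, u2⟩ := exists_covBy_le_of_lt hp.prop.1
      obtain ⟨v, v1, v2⟩ := exists_covBy_le_of_lt hp.prop.2
      refine ⟨u, v, ?_, fun w => ⟨same p u v u1 v1 w, same p v u v1 u1 w⟩⟩
      rintro rfl
      have h3 : u < x := lt_of_le_of_ne u2 (fun h => h1 (h ▸ v2))
      have h4 : u < y := lt_of_le_of_ne v2 (fun h => h2 (h ▸ u2))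
      exact absurd (hp.le_of_ge (y := u) ⟨h3, h4⟩ u1.le) u1.lt.not_ge
    · obtain ⟨m, hm1⟩ := (Set.toFinite {p | p ≤ x}).exists_minimal ⟨x, le_rfl⟩
      obtain ⟨m', hm2⟩ := (Set.toFinite {p | p ≤ y}).exists_minimal ⟨y, le_rfl⟩
      have e1 : ∀ w, ¬ w < m := fun w hw =>
        absurd (hm1.le_of_le (y := w) (hw.le.trans hm1.prop) hw.le) hw.not_ge
      have e2 : ∀ w, ¬ w < m' := fun w hw =>
        absurd (hm2.le_of_le (y := w) (hw.le.trans hm2.prop) hw.le) hw.not_ge
      refine ⟨m, m', ?_, fun w => ⟨fun h => absurd h (e1 w), fun h => absurd h (e2 w)⟩⟩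
      rintro rfl
      refine hm ⟨m, lt_of_le_of_ne hm1.prop ?_, lt_of_le_of_ne hm2.prop ?_⟩
      · rintro rfl
        exact h1 hm2.prop
      · rintro rfl
        exact h2 hm1.prop
  obtain ⟨⟨x, y⟩, hmin⟩ := (Set.toFinite {q : P × P | q.1 ≠ q.2 ∧
    ∀ w, w < q.1 ↔ w < q.2}).exists_minimalFor
      (fun q : P × P => ({w : P | q.1 < w ∨ q.2 < w} : Set P).ncard) _ (by
        obtain ⟨x, y, h⟩ := ex
        exact ⟨(x, y), h⟩)
  obtain ⟨hne, hD⟩ := hmin.prop
  simp only at hne hD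
  have main : ∀ S : Set P, (∀ w, w ∈ S ↔ (x < w ∨ y < w)) → ∀ x' y', x' ≠ y' →
      (∀ w, x' < w → w ∈ S) → (∀ w, w < x' ↔ w < y') →
      (∀ w w', x' < w → x' < w' → ¬ y' < w → ¬ y' < w' → w ≤ w' ∨ w' ≤ w) := by
    intro S hS x' y' _ hx' _ u v h1 h2 h3 h4
    by_contra hcon
    push Not at hcon
    obtain ⟨p, hp⟩ := (Set.toFinite {p | x' ≤ p ∧ p < u ∧ p < v}).exists_maximal
      ⟨x', le_rfl, h1, h2⟩
    obtain ⟨p1, p2, p3⟩ := hp.prop
    obtain ⟨u', u1, u2⟩ := exists_covBy_le_of_lt p2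
    obtain ⟨v', v1, v2⟩ := exists_covBy_le_of_lt p3
    have huv : u' ≠ v' := by
      rintro rfl
      have h5 : u' < u := lt_of_le_of_ne u2 (fun h => hcon.1 (h ▸ v2))
      have h6 : u' < v := lt_of_le_of_ne v2 (fun h => hcon.2 (h ▸ u2))
      exact absurd (hp.le_of_ge (y := u') ⟨p1.trans u1.le, h5, h6⟩ u1.le) u1.lt.not_ge
    have hmem : (u', v') ∈ {q : P × P | q.1 ≠ q.2 ∧ ∀ w, w < q.1 ↔ w < q.2} :=
      ⟨huv, fun w => ⟨same p u' v' u1 v1 w, same p v' u' v1 u1 w⟩⟩
    have hlt : ({w : P | u' < w ∨ v' < w} : Set P).ncard <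
        ({w : P | x < w ∨ y < w} : Set P).ncard := by
      apply Set.ncard_lt_ncard _ (Set.toFinite _)
      refine ⟨?_, fun h => ?_⟩
      · rintro w (hw | hw)
        · exact (hS w).1 (hx' w (lt_of_le_of_lt p1 (u1.lt.trans hw)))
        · exact (hS w).1 (hx' w (lt_of_le_of_lt p1 (v1.lt.trans hw)))
      · rcases h ((hS u').1 (hx' u' (lt_of_le_of_lt p1 u1.lt))) with h5 | h5
        · exact lt_irrefl _ h5
        · exact u1.2 v1.lt h5
    exact absurd (hmin.le_of_le hmem hlt.le) (not_le_of_gt hlt)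
  left
  refine ⟨x, y, hne, hD, ?_, ?_⟩
  · exact main {w | x < w ∨ y < w} (fun w => Iff.rfl) x y hne (fun w h => Or.inl h) hD
  · exact main {w | x < w ∨ y < w} (fun w => Iff.rfl) y x hne.symm (fun w h => Or.inr h)
      (fun w => (hD w).symm)

end Pool.Agent.U155.GC
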