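import Mathlib
import Pool.Agent.U155.GC.B

/-!
The golden partition property is invariant under duality; posets with a near pair.
-/

set_option autoImplicit false
set_option linter.unusedSectionVars false

namespace Pool.Agent.U155.GC

open Pool.Agent.R636.BG

lemma cnt_dual_le {Q : Type} [PartialOrder Q] [Finite Q] {n : ℕ} (p : (Q → Q → Prop) → Prop) :
    cnt Q n p ≤ cnt Qᵒᵈ n (fun r => p (fun x y => r (OrderDual.toDual y) (OrderDual.toDual x))) := by
  have : Finite Qᵒᵈ := inferInstance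
  unfold cnt
  refine Set.ncard_le_ncard_of_injOn
    (fun f : Q ≃ Fin n => (OrderDual.ofDual.trans (f.trans Fin.revPerm) : Qᵒᵈ ≃ Fin n)) ?_ ?_
    (Set.toFinite _)
  · rintro f ⟨hf, hp⟩
    refine ⟨fun u v huv => ?_, ?_⟩
    · have h1 : f (OrderDual.ofDual v) < f (OrderDual.ofDual u) := hf huv
      exact Fin.rev_lt_rev.2 h1
    · have h2 : (fun x y : Q => ((OrderDual.ofDual.trans (f.trans Fin.revPerm) : Qᵒᵈ ≃ Fin n)
          (OrderDual.toDual y)) < ((OrderDual.ofDual.trans (f.trans Fin.revPerm) : Qᵒᵈ ≃ Fin n)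
          (OrderDual.toDual x))) = fun x y : Q => f x < f y := by
        funext x y
        exact propext Fin.rev_lt_rev
      show p _
      rw [h2]
      exact hp
  · intro f _ g _ hfg
    ext w
    have h1 : Fin.rev (f w) = Fin.rev (g w) :=
      congrArg (fun e : Qᵒᵈ ≃ Fin n => e (OrderDual.toDual w)) hfg
    exact congrArg Fin.val (Fin.rev_injective h1)

lemma gpc_dual {P : Type} [PartialOrder P] [Finite P] {n : ℕ} (h : GPC Pᵒᵈ n) : GPC P n := by
  obtain ⟨a, b, h1, h2, h3⟩ := h
  refine ⟨OrderDual.ofDual a, OrderDual.ofDual b, h2, h1, ?_⟩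
  intro u v huv
  obtain ⟨c, d, hcd, h4⟩ := h3 (OrderDual.toDual v) (OrderDual.toDual u) (by
    rcases huv with ⟨rfl, rfl⟩ | ⟨rfl, rfl⟩
    · exact Or.inr ⟨rfl, rfl⟩
    · exact Or.inl ⟨rfl, rfl⟩)
  refine ⟨OrderDual.ofDual c, OrderDual.ofDual d, hcd, ?_⟩
  intro w z hwz
  have h5 := h4 (OrderDual.toDual z) (OrderDual.toDual w) (by
    rcases hwz with ⟨rfl, rfl⟩ | ⟨rfl, rfl⟩
    · exact Or.inr ⟨rfl, rfl⟩
    · exact Or.inl ⟨rfl, rfl⟩)
  have h6 := cnt_dual_le (Q := P) (n := n) (fun r => r u v)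
  have h7 := cnt_dual_le (Q := P) (n := n) (fun r => r u v ∧ r w z)
  have h8 : cnt Pᵒᵈ n (fun _ => True) ≤ cnt P n (fun _ => True) :=
    cnt_dual_le (Q := Pᵒᵈ) (n := n) (fun _ => True)
  exact (Nat.add_le_add h6 h7).trans (h5.trans h8)

/-- there is a linear extension -/
lemma cnt_pos (P : Type) [PartialOrder P] [Fintype P] :
    0 < cnt P (Fintype.card P) (fun _ => True) := by
  classical
  have : Fintype (LinearExtension P) := inferInstanceAs (Fintype P)
  have hc : Fintype.card (LinearExtension P) = Fintype.card P := by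
    apply Fintype.card_congr
    exact Equiv.refl P
  let e := Fintype.orderIsoFinOfCardEq (LinearExtension P) hc
  let f : P ≃ Fin (Fintype.card P) :=
    (show P ≃ LinearExtension P from Equiv.refl P).trans e.symm.toEquiv
  unfold cnt
  rw [Set.ncard_pos (Set.toFinite _)]
  refine ⟨f, ?_, trivial⟩
  intro x y hxy
  have h1 : toLinearExtension x ≤ toLinearExtension y := toLinearExtension.monotone hxy.le
  have h2 : toLinearExtension x ≠ toLinearExtension y := fun h => hxy.ne h
  exact e.symm.strictMono (lt_of_le_of_ne h1 h2)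

/-- the dual statement on good pairs -/
theorem gpc_good' {P : Type} [PartialOrder P] [Fintype P] {a b : P} (hab : a ≠ b)
    (hD : ∀ w, a < w → b < w)
    (hC : ∀ w w', w < b → w' < b → ¬ w < a → ¬ w' < a → w ≤ w' ∨ w' ≤ w)
    (hN : 2 * cnt P (Fintype.card P) (fun r => r b a) ≤
      cnt P (Fintype.card P) (fun _ => True)) : GPC P (Fintype.card P) := by
  apply gpc_dual
  have h8 : cnt P (Fintype.card P) (fun _ => True) ≤ cnt Pᵒᵈ (Fintype.card P) (fun _ => True) :=
    cnt_dual_le (Q := P) (n := Fintype.card P) (fun _ => True)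
  have h7 : cnt Pᵒᵈ (Fintype.card P) (fun r => r (OrderDual.toDual a) (OrderDual.toDual b)) ≤
      cnt P (Fintype.card P) (fun r => r b a) :=
    cnt_dual_le (Q := Pᵒᵈ) (n := Fintype.card P)
      (fun r => r (OrderDual.toDual a) (OrderDual.toDual b))
  refine gpc_good (P := Pᵒᵈ) (a := OrderDual.toDual a) (b := OrderDual.toDual b) hab
    (fun w hw => hD w hw) (fun w w' h1 h2 h3 h4 => (hC w w' h1 h2 h3 h4).symm) ?_ ?_
  · omega
  · exact lt_of_lt_of_le (cnt_pos P) h8

theorem gpc_near {P : Type} [PartialOrder P] [Fintype P] (h : HasNear P) :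
    GPC P (Fintype.card P) := by
  have key : ∀ a b : P, a ≠ b →
      2 * cnt P (Fintype.card P) (fun r => r a b) ≤ cnt P (Fintype.card P) (fun _ => True) ∨
      2 * cnt P (Fintype.card P) (fun r => r b a) ≤ cnt P (Fintype.card P) (fun _ => True) := by
    intro a b hab
    have := cnt_tot (n := Fintype.card P) hab
    omega
  rcases h with ⟨a, b, h1, h2, h3, h4⟩ | ⟨a, b, h1, h2, h3, h4⟩
  · rcases key a b h1 with h5 | h5
    · exact gpc_good h1 (fun w => (h2 w).1) h4 h5 (cnt_pos P)
    · exact gpc_good h1.symm (fun w => (h2 w).2) h3 h5 (cnt_pos P)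
  · rcases key a b h1 with h5 | h5
    · exact gpc_good' h1.symm (fun w => (h2 w).2) h3 h5
    · exact gpc_good' h1 (fun w => (h2 w).1) h4 h5

end Pool.Agent.U155.GC
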