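import Mathlib
import Pool.Agent.H931R3.Bal12
import Pool.Agent.U155.GC.C

/-!
The golden partition property passes from an autonomous subset to the poset.
-/

set_option autoImplicit false
set_option linter.unusedSectionVars false

namespace Pool.Agent.U155.GC

open Finset
open Pool.Agent.H13R3.WB Pool.Agent.H931R3.Bal

open Classical in
lemma cnt_eq (P : Type) [PartialOrder P] [Fintype P] (n : ℕ) (p : (P → P → Prop) → Prop) :
    cnt P n p = #{f : LEn P n | p (fun x y => f.1 x < f.1 y)} := by
  unfold cnt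
  rw [← Set.ncard_coe_finset, ← Set.ncard_image_of_injective
    (s := ((({f : LEn P n | p (fun x y => f.1 x < f.1 y)} : Finset (LEn P n)) : Set (LEn P n))))
    (f := fun f : LEn P n => f.1) Subtype.val_injective]
  congr 1
  ext f
  simp only [Set.mem_image, mem_coe, mem_filter, mem_univ, true_and]
  constructor
  · rintro ⟨h1, h2⟩
    exact ⟨⟨f, h1.monotone⟩, h2, rfl⟩
  · rintro ⟨g, h1, rfl⟩
    exact ⟨fun x y h => lt_of_mono g.2 h, h1⟩

variable {P : Type} [Fintype P] [PartialOrder P] {M : Set P}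

lemma cnt_auto (hM : Autonomous M) [Fintype M] : ∃ N : ℕ,
    ∀ p : (M → M → Prop) → Prop, cnt P (Fintype.card P) (fun r => p (fun x y => r x y)) =
      N * cnt M (Fintype.card M) p := by
  classical
  obtain ⟨τ0⟩ := LEn_nonempty (P := M) (n := Fintype.card M) rfl
  refine ⟨#{f : LEn P (Fintype.card P) | rk (n := Fintype.card P) (M := M) rfl f = τ0}, ?_⟩
  intro p
  have hfib : ∀ τ : LEn M (Fintype.card M),
      #{f : LEn P (Fintype.card P) | rk (n := Fintype.card P) (M := M) rfl f = τ} =
      #{f : LEn P (Fintype.card P) | rk (n := Fintype.card P) (M := M) rfl f = τ0} := fun τ =>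
    le_antisymm (fiber_le hM rfl τ τ0) (fiber_le hM rfl τ0 τ)
  rw [cnt_eq, cnt_eq]
  have hrel : ∀ f : LEn P (Fintype.card P),
      (fun x y : M => (rk (n := Fintype.card P) (M := M) rfl f).1 x <
        (rk (n := Fintype.card P) (M := M) rfl f).1 y) = fun x y : M => f.1 x < f.1 y := by
    intro f
    funext x y
    exact propext (rk_spec rfl f x y)
  rw [Finset.card_eq_sum_card_fiberwise (f := rk (n := Fintype.card P) (M := M) rfl)
    (t := {τ : LEn M (Fintype.card M) | p (fun x y => τ.1 x < τ.1 y)}) ?_]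
  · rw [Finset.sum_congr rfl (g := fun _ =>
      #{f : LEn P (Fintype.card P) | rk (n := Fintype.card P) (M := M) rfl f = τ0}) ?_]
    · rw [Finset.sum_const, smul_eq_mul, mul_comm]
    · intro τ hτ
      rw [← hfib τ, Finset.filter_filter]
      congr 1
      ext f
      simp only [mem_filter, mem_univ, true_and]
      constructor
      · exact fun h => h.2
      · intro h
        refine ⟨?_, h⟩
        rw [← hrel f, h]
        exact (mem_filter.1 hτ).2
  · intro f hf
    rw [mem_coe, mem_filter]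
    refine ⟨mem_univ _, ?_⟩
    rw [hrel f]
    exact (mem_filter.1 (mem_coe.1 hf)).2

/-- **Autonomous subsets.** -/
theorem gpc_auto (hM : Autonomous M) [Fintype M] (h : GPC M (Fintype.card M)) :
    GPC P (Fintype.card P) := by
  obtain ⟨N, hN⟩ := cnt_auto (P := P) hM
  obtain ⟨a, b, h1, h2, h3⟩ := h
  refine ⟨a, b, h1, h2, ?_⟩
  have key : ∀ u v : M, ((u = a ∧ v = b) ∨ (u = b ∧ v = a)) →
      ∃ c d : P, c ≠ d ∧ ∀ w z : P, ((w = c ∧ z = d) ∨ (w = d ∧ z = c)) →
      cnt P (Fintype.card P) (fun r => r u v) + cnt P (Fintype.card P) (fun r => r u v ∧ r w z) ≤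
        cnt P (Fintype.card P) (fun _ => True) := by
    intro u v huv
    obtain ⟨c, d, hcd, h4⟩ := h3 u v huv
    refine ⟨c, d, fun h => hcd (Subtype.ext h), ?_⟩
    have fin : ∀ w z : M, ((w = c ∧ z = d) ∨ (w = d ∧ z = c)) →
        cnt P (Fintype.card P) (fun r => r u v) +
          cnt P (Fintype.card P) (fun r => r u v ∧ r w z) ≤
        cnt P (Fintype.card P) (fun _ => True) := by
      intro w z hwz
      have e1 := hN (fun r => r u v)
      have e2 := hN (fun r => r u v ∧ r w z)
      have e3 := hN (fun _ => True)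
      simp only at e1 e2 e3
      rw [e1, e2, e3, ← Nat.mul_add]
      exact Nat.mul_le_mul_left _ (h4 w z hwz)
    rintro w z (⟨rfl, rfl⟩ | ⟨rfl, rfl⟩)
    · exact fin c d (Or.inl ⟨rfl, rfl⟩)
    · exact fin d c (Or.inr ⟨rfl, rfl⟩)
  rintro u v (⟨rfl, rfl⟩ | ⟨rfl, rfl⟩)
  · exact key a b (Or.inl ⟨rfl, rfl⟩)
  · exact key b a (Or.inr ⟨rfl, rfl⟩)

end Pool.Agent.U155.GC
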