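import Mathlib
import Pool.Agent.U155.GC.D

/-!
The golden partition property for posets with a majority cycle or a nontrivial automorphism.
-/

set_option autoImplicit false
set_option linter.unusedSectionVars false

namespace Pool.Agent.U155.GC

variable {P : Type} [PartialOrder P] {n : ℕ}

section

variable [Finite P]

lemma cnt_pair (p : (P → P → Prop) → Prop) {x y : P} (h : x ≠ y) :
    cnt P n p = cnt P n (fun r => p r ∧ r x y) + cnt P n (fun r => p r ∧ r y x) := by
  rw [cnt_split p (fun r => r x y)]
  congr 1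
  apply le_antisymm
  · refine cnt_mono (fun f _ h1 => ⟨h1.1, ?_⟩)
    rcases lt_trichotomy (f x) (f y) with h2 | h2 | h2
    · exact absurd h2 h1.2
    · exact absurd (f.injective h2) h
    · exact h2
  · exact cnt_mono (fun f _ h1 => ⟨h1.1, h1.2.not_gt⟩)

lemma cnt_comm (p q : (P → P → Prop) → Prop) :
    cnt P n (fun r => p r ∧ q r) = cnt P n (fun r => q r ∧ p r) :=
  le_antisymm (cnt_mono fun _ _ h => ⟨h.2, h.1⟩) (cnt_mono fun _ _ h => ⟨h.2, h.1⟩)

lemma gpc_cycle_aux {a b c : P} (hab : a ≠ b) (hbc : b ≠ c) (hca : c ≠ a)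
    (hpos : 0 < cnt P n (fun _ => True))
    (C : cnt P n (fun _ => True) ≤ 2 * cnt P n (fun r => r c a))
    (hA : cnt P n (fun r => r c a) ≤ cnt P n (fun r => r a b))
    (hB : cnt P n (fun r => r c a) ≤ cnt P n (fun r => r b c)) : GPC P n := by
  have tc := cnt_tot (n := n) hca
  have b1 := cnt_pair (n := n) (fun r => r b c) hca
  have b2 := cnt_pair (n := n) (fun r => r c a) hbc
  have a1 := cnt_pair (n := n) (fun r => r a b) hca
  have a2 := cnt_pair (n := n) (fun r => r c a) hab
  have e1 := cnt_comm (n := n) (fun r : P → P → Prop => r b c) (fun r => r c a)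
  have e2 := cnt_comm (n := n) (fun r : P → P → Prop => r a b) (fun r => r c a)
  have m1 : cnt P n (fun r => r b c ∧ r a c) ≤ cnt P n (fun r => r a c) :=
    cnt_mono fun _ _ h => h.2
  have m2 : cnt P n (fun r => r a b ∧ r a c) ≤ cnt P n (fun r => r a c) :=
    cnt_mono fun _ _ h => h.2
  have m3 : cnt P n (fun r => r c a ∧ r a b) ≤ cnt P n (fun r => r c a ∧ r c b) :=
    cnt_mono fun _ _ h => ⟨h.1, lt_trans h.1 h.2⟩
  have n2 : ¬ a ≤ c := by
    intro h
    have h1 : cnt P n (fun _ => True) ≤ cnt P n (fun r => r a c) :=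
      cnt_mono (fun f hf _ => hf (lt_of_le_of_ne h hca.symm))
    omega
  have n1 : ¬ c ≤ a := by
    intro h
    have h1 : cnt P n (fun _ => True) ≤ cnt P n (fun r => r c a) :=
      cnt_mono (fun f hf _ => hf (lt_of_le_of_ne h hca))
    -- then all three relations always hold
    have h2 : cnt P n (fun r => r a c) = 0 := by omega
    have h3 : cnt P n (fun r => r c a ∧ r a b) ≤ cnt P n (fun r => r b c ∧ r a c) := by omega
    have h4 := cnt_tot (n := n) hab
    have h5 : cnt P n (fun r => r c a ∧ r b a) ≤ cnt P n (fun r => r b a) :=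
      cnt_mono fun _ _ h => h.2
    omega
  refine gpc_of n1 n2 ⟨a, b, hab, ?_⟩ (half hca.symm (by omega))
  rintro w z (⟨rfl, rfl⟩ | ⟨rfl, rfl⟩)
  · omega
  · omega

/-- three elements with a majority cycle -/
theorem gpc_cycle {a b c : P} (hab : a ≠ b) (hbc : b ≠ c) (hca : c ≠ a)
    (hpos : 0 < cnt P n (fun _ => True))
    (A : cnt P n (fun _ => True) ≤ 2 * cnt P n (fun r => r a b))
    (B : cnt P n (fun _ => True) ≤ 2 * cnt P n (fun r => r b c))
    (C : cnt P n (fun _ => True) ≤ 2 * cnt P n (fun r => r c a)) : GPC P n := by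
  by_cases h1 : cnt P n (fun r => r c a) ≤ cnt P n (fun r => r a b) ∧
      cnt P n (fun r => r c a) ≤ cnt P n (fun r => r b c)
  · exact gpc_cycle_aux hab hbc hca hpos C h1.1 h1.2
  by_cases h2 : cnt P n (fun r => r a b) ≤ cnt P n (fun r => r b c) ∧
      cnt P n (fun r => r a b) ≤ cnt P n (fun r => r c a)
  · exact gpc_cycle_aux hbc hca hab hpos A h2.1 h2.2
  · exact gpc_cycle_aux hca hab hbc hpos B (by omega) (by omega)

/-- a majority cycle of any length -/
theorem gpc_majority {x : P} (hpos : 0 < cnt P n (fun _ => True))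
    (hx : Relation.TransGen (fun a b : P => cnt P n (fun _ => True) < 2 * cnt P n (fun r => r a b))
      x x) : GPC P n := by
  by_contra hG
  have irr : ∀ a b : P, cnt P n (fun _ => True) < 2 * cnt P n (fun r => r a b) → a ≠ b := by
    rintro a b h rfl
    have h1 : cnt P n (fun r : P → P → Prop => r a a) = 0 := by
      unfold cnt
      rw [Set.ncard_eq_zero (Set.toFinite _)]
      ext f
      simp
    omega
  have key : ∀ y, Relation.TransGen
      (fun a b : P => cnt P n (fun _ => True) < 2 * cnt P n (fun r => r a b)) x y →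
      cnt P n (fun _ => True) < 2 * cnt P n (fun r => r x y) := by
    intro y hy
    induction hy with
    | single h => exact h
    | @tail b c _ hbc ih =>
      by_contra hcon
      rw [not_lt] at hcon
      have hxb := irr _ _ ih
      have hbc' := irr _ _ hbc
      have hcx : c ≠ x := by
        rintro rfl
        have := cnt_tot (n := n) hxb
        omega
      have ht := cnt_tot (n := n) hcx
      exact hG (gpc_cycle hxb hbc' hcx hpos ih.le hbc.le (by omega))
  exact irr x x (key x hx) rfl

lemma cnt_iso_le (e : P ≃o P) (a b : P) :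
    cnt P n (fun r => r a b) ≤ cnt P n (fun r => r (e a) (e b)) := by
  unfold cnt
  refine Set.ncard_le_ncard_of_injOn (fun f : P ≃ Fin n => e.symm.toEquiv.trans f) ?_ ?_
    (Set.toFinite _)
  · rintro f ⟨hf, hp⟩
    refine ⟨fun u v huv => hf (e.symm.strictMono huv), ?_⟩
    show f (e.symm (e a)) < f (e.symm (e b))
    simpa using hp
  · intro f _ g _ hfg
    ext w
    have h1 : f (e.symm (e w)) = g (e.symm (e w)) :=
      congrArg (fun h : P ≃ Fin n => h (e w)) hfg
    simpa using congrArg Fin.val h1

lemma cycle_of {R : P → P → Prop} (g : Equiv.Perm P) (hR : ∀ a b, R a b → R (g a) (g b)) {x : P}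
    (h : R x (g x)) : Relation.TransGen R x x := by
  obtain ⟨k, hk, hk1⟩ := (isOfFinOrder_iff_pow_eq_one.1 (isOfFinOrder_of_finite g))
  have step : ∀ j : ℕ, R ((g ^ j) x) ((g ^ (j + 1)) x) := by
    intro j
    induction j with
    | zero => simpa using h
    | succ j ih =>
      have := hR _ _ ih
      rw [pow_succ' g j, pow_succ' g (j + 1)]
      exact this
  have key : ∀ j : ℕ, Relation.TransGen R x ((g ^ (j + 1)) x) := by
    intro j
    induction j with
    | zero => exact Relation.TransGen.single (by simpa using h)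
    | succ j ih => exact ih.tail (step (j + 1))
  have := key (k - 1)
  rw [Nat.sub_add_cancel hk, hk1] at this
  exact this

/-- posets with a nontrivial automorphism -/
theorem gpc_automorphism (e : P ≃o P) (he : e ≠ OrderIso.refl P)
    (hpos : 0 < cnt P n (fun _ => True)) : GPC P n := by
  obtain ⟨x, hx⟩ : ∃ x, e x ≠ x := by
    by_contra hcon
    push Not at hcon
    exact he (by ext x; exact hcon x)
  have tot := cnt_tot (n := n) hx.symm
  rcases lt_trichotomy (cnt P n (fun _ => True)) (2 * cnt P n (fun r => r x (e x))) with h | h | h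
  · refine gpc_majority (x := x) hpos (cycle_of e.toEquiv ?_ h)
    intro a b hab
    have := cnt_iso_le (n := n) e a b
    show cnt P n (fun _ => True) < 2 * cnt P n (fun r => r (e a) (e b))
    omega
  · -- balanced pair
    refine gpc_of (a := x) (y := e x) ?_ ?_ (half hx.symm (by omega)) (half hx (by omega))
    · intro h1
      have h2 : cnt P n (fun _ => True) ≤ cnt P n (fun r => r x (e x)) :=
        cnt_mono (fun f hf _ => hf (lt_of_le_of_ne h1 hx.symm))
      omega
    · intro h1
      have h2 : cnt P n (fun _ => True) ≤ cnt P n (fun r => r (e x) x) :=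
        cnt_mono (fun f hf _ => hf (lt_of_le_of_ne h1 hx))
      omega
  · have h' : cnt P n (fun _ => True) < 2 * cnt P n (fun r => r (e x) x) := by omega
    refine gpc_majority (x := e x) hpos (cycle_of e.symm.toEquiv ?_ ?_)
    · intro a b hab
      have := cnt_iso_le (n := n) e.symm a b
      show cnt P n (fun _ => True) < 2 * cnt P n (fun r => r (e.symm a) (e.symm b))
      omega
    · show cnt P n (fun _ => True) < 2 * cnt P n (fun r => r (e x) (e.symm (e x)))
      simpa using h'

end

end Pool.Agent.U155.GC
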